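import Pool.Agent.Q158.Col3.Final

/-! Few values for most integers of any interval: the theorem. -/

set_option autoImplicit false

namespace Pool.Agent.Q158.Col3

open Pool.Agent.H320R2.PD Finset
open Pool.Agent.H499R2.ND hiding XX mem_XX XX_word XX_card shift_card star PB stage

theorem few {d : ℤ} (hd : Odd d) (hd3 : IsCoprime d 3) (ε : ℝ) (hε : 0 < ε) :
    ∃ C K : ℝ, 0 < C ∧ 0 < K ∧ ∀ L : ℕ, 2 ≤ L → ∀ t : ℕ, K * Real.log L ≤ t → ∀ a : ℤ,
      ∃ V : Finset ℤ, (V.card : ℝ) ≤ C * √ (Real.log L) ∧
        (((Icc a (a + L)).filter (fun x => (Cd d)^[t] x ∉ V)).card : ℝ) ≤ ε * L := by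
  classical
  obtain ⟨C0, hC0, hsc⟩ := scales hd hd3
  obtain ⟨J, hJ⟩ := exists_pow_lt_of_lt_one (show 0 < ε / 8 by positivity)
    (show (1 / 2 : ℝ) < 1 by norm_num)
  set lam : ℝ := max 1000 (8 * C0 / ε) with hlam
  have hlam1 : 1000 ≤ lam := le_max_left _ _
  have hlam0 : 0 < lam := by linarith
  have hlam2 : C0 / lam ≤ ε / 8 := by
    rw [div_le_iff₀ hlam0]
    have : 8 * C0 / ε ≤ lam := le_max_right _ _
    rw [div_le_iff₀ hε] at this
    linarith
  set c : ℝ := √ (5120 / ε) with hc
  have hc0 : 0 < c := Real.sqrt_pos.2 (by positivity)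
  have hc2 : c ^ 2 = 5120 / ε := Real.sq_sqrt (by positivity)
  set N1 : ℕ := ⌈4 * lam + 1⌉₊ with hN1
  have hN1' : 4 * lam + 1 ≤ N1 := Nat.le_ceil _
  set L0 : ℕ := max (2 ^ (J + 1)) ⌈4 / ε⌉₊ with hL0
  refine ⟨J * ((160 * c + 6) * (N1 * (Real.exp lam + 1))) + 2 * (L0 + 1),
    2 * J + 24 + 13 * (40 * c * 4 + 2) + 1, by positivity, by positivity, ?_⟩
  intro L hL t ht a
  have hLr : (2 : ℝ) ≤ L := by exact_mod_cast hL
  have hlogL : Real.log 2 ≤ Real.log L := Real.log_le_log (by norm_num) hLr
  have hl2 := Real.log_two_gt_d9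
  set y := Real.log (L : ℝ) with hy
  have hy1 : 0.69 ≤ y := by linarith
  have hsy : 1 / 2 ≤ √ y := by
    apply Real.le_sqrt_of_sq_le
    norm_num
    linarith
  rcases lt_or_ge L L0 with hlt | hge
  · refine ⟨(Icc a (a + L)).image ((Cd d)^[t]), ?_, ?_⟩
    · have h1 := card_image_le (s := Icc a (a + L)) (f := (Cd d)^[t])
      rw [Int.card_Icc] at h1
      have h2 : (a + L + 1 - a).toNat = L + 1 := by omega
      rw [h2] at h1
      have h3 : (((Icc a (a + L)).image ((Cd d)^[t])).card : ℝ) ≤ L0 + 1 := by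
        have : ((Icc a (a + L)).image ((Cd d)^[t])).card ≤ L0 + 1 := by omega
        exact_mod_cast this
      have h4 : ((L0 : ℝ) + 1) ≤ 2 * (L0 + 1) * √ y := by
        have : (0 : ℝ) ≤ (L0 : ℝ) + 1 := by positivity
        nlinarith
      have h5 : 0 ≤ J * ((160 * c + 6) * (N1 * (Real.exp lam + 1))) * √ y := by positivity
      have e : (J * ((160 * c + 6) * (N1 * (Real.exp lam + 1))) + 2 * ((L0 : ℝ) + 1)) * √ y =
        J * ((160 * c + 6) * (N1 * (Real.exp lam + 1))) * √ y + 2 * (L0 + 1) * √ y := by ring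
      rw [e]
      linarith
    · have : (Icc a (a + L)).filter (fun x => (Cd d)^[t] x ∉ (Icc a (a + L)).image ((Cd d)^[t])) = ∅ := by
        rw [filter_eq_empty_iff]
        intro x hx
        rw [not_not]
        exact mem_image_of_mem _ hx
      rw [this, card_empty, Nat.cast_zero]
      positivity
  · have hL1 : 2 ^ (J + 1) ≤ L := le_trans (le_max_left _ _) hge
    have hL2 : 4 / ε ≤ L := by
      have h1 : ⌈4 / ε⌉₊ ≤ L := le_trans (le_max_right _ _) hge
      exact (Nat.le_ceil _).trans (by exact_mod_cast h1)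
    set R' : ℕ := ⌈40 * c * √ (2 * y)⌉₊ with hR'
    have hR1 : 40 * c * √ (2 * y) ≤ R' := Nat.le_ceil _
    have hR2 : (R' : ℝ) ≤ 40 * c * √ (2 * y) + 1 := (Nat.ceil_lt_add_one (by positivity)).le
    have hs2 : √ (2 * y) ≤ 2 * √ y := by
      rw [Real.sqrt_le_left (by positivity), mul_pow, Real.sq_sqrt (by linarith)]
      linarith
    have hs3 : √ y ≤ 2 * y := by
      rw [Real.sqrt_le_left (by linarith)]
      nlinarith
    set A : ℝ := (L : ℝ) + 1 with hA
    have hA1 : (2 : ℝ) ^ (J + 1) ≤ A := by
      have : (2 : ℝ) ^ (J + 1) ≤ L := by exact_mod_cast hL1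
      linarith
    have hdata : ∀ j < J, 0 < Real.log (A / 2 ^ j) ∧ Real.log (A / 2 ^ j) ≤ 2 * y := by
      intro j hj
      constructor
      · apply Real.log_pos
        rw [lt_div_iff₀ (by positivity), one_mul]
        refine lt_of_lt_of_le ?_ hA1
        exact pow_lt_pow_right₀ (by norm_num) (by omega)
      · have h1 : A / 2 ^ j ≤ (L : ℝ) ^ 2 := by
          have h2 : A / 2 ^ j ≤ A := div_le_self (by positivity) (one_le_pow₀ (by norm_num))
          nlinarith
        have h3 := Real.log_le_log (by positivity) h1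
        rw [Real.log_pow] at h3
        exact_mod_cast h3
    set α : ℕ → ℝ := fun j => (a : ℝ) / 2 ^ j with hα
    set β : ℕ → ℝ := fun j => ((a : ℝ) + L + 1) / 2 ^ j with hβ
    have hβα : ∀ j, β j - α j = A / 2 ^ j := by
      intro j
      rw [hα, hβ, hA]
      simp only
      ring
    set Dj : ℕ → ℝ := fun j => c * √ (√ (Real.log (A / 2 ^ j))) with hDj
    set bad : ℕ → Finset ℤ := fun j => cls (Gd d (Dj j) lam (α j) (β j))ᶜ (α j) (β j) 0 1 0 with hbad
    have hαβ : ∀ j, α j < β j := by
      intro j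
      have h1 := hβα j
      have h2 : 0 < A / 2 ^ j := by positivity
      linarith
    have hbadc : ∀ j < J, ((bad j).card : ℝ) ≤ ε / 4 * (A / 2 ^ j / 2) := by
      intro j hj
      obtain ⟨h1, h2⟩ := hdata j hj
      have hq : 0 < √ (√ (Real.log (A / 2 ^ j))) := Real.sqrt_pos.2 (Real.sqrt_pos.2 h1)
      have h3 := hsc (Dj j) (by rw [hDj]; positivity) lam hlam1 (α j) (β j) (hαβ j)
        (by rw [hβα]; exact h1.le) 0 (by
          rw [hβα, Nat.cast_zero]
          have := h1.le
          simpa using this) 1 0 isCoprime_one_left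
      rw [hβα] at h3
      refine h3.trans ?_
      rw [pow_zero, mul_one]
      apply mul_le_mul_of_nonneg_right _ (by positivity)
      have h4 : 640 * √ (Real.log (A / 2 ^ j)) / (Dj j) ^ 2 = ε / 8 := by
        rw [hDj]
        simp only
        rw [mul_pow, Real.sq_sqrt (Real.sqrt_nonneg _), hc2]
        have : √ (Real.log (A / 2 ^ j)) ≠ 0 := (Real.sqrt_pos.2 h1).ne'
        field_simp
        norm_num
      rw [h4]
      linarith
    refine ⟨(range J).biUnion (fun j => Vj d (α j) (β j) lam R' N1 t j), ?_, ?_⟩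
    · refine (by exact_mod_cast card_biUnion_le : ((_ : ℕ) : ℝ) ≤ ((_ : ℕ) : ℝ)).trans ?_
      push_cast
      refine (sum_le_card_nsmul _ _ _ (fun j _ => Vj_card d (hαβ j).le lam R' N1 t j)).trans ?_
      rw [card_range, nsmul_eq_mul]
      have h1 : 2 * (R' : ℝ) + 1 ≤ (160 * c + 6) * √ y := by
        have h2 : 40 * c * √ (2 * y) ≤ 40 * c * (2 * √ y) :=
          mul_le_mul_of_nonneg_left hs2 (by positivity)
        nlinarith
      have h2 : (0 : ℝ) ≤ N1 * (Real.exp lam + 1) := by positivity
      have h3 := mul_le_mul_of_nonneg_right h1 h2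
      have h4 := mul_le_mul_of_nonneg_left h3 (Nat.cast_nonneg J : (0 : ℝ) ≤ J)
      refine h4.trans ?_
      have h5 : 0 ≤ 2 * ((L0 : ℝ) + 1) * √ y := by positivity
      have e : (J * ((160 * c + 6) * (N1 * (Real.exp lam + 1))) + 2 * ((L0 : ℝ) + 1)) * √ y =
        J * ((160 * c + 6) * √ y * (N1 * (Real.exp lam + 1))) + 2 * (L0 + 1) * √ y := by ring
      rw [e]
      linarith
    · -- the exceptional integers
      have hsub : (Icc a (a + L)).filter (fun x => (Cd d)^[t] x ∉
          (range J).biUnion (fun j => Vj d (α j) (β j) lam R' N1 t j)) ⊆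
          ap (a : ℝ) ((a : ℝ) + L + 1) (2 ^ J) 0 ∪
            (range J).biUnion (fun j => (bad j).image (fun M => 2 ^ j * M)) := by
        intro x hx
        rw [mem_filter, mem_Icc] at hx
        obtain ⟨⟨hx1, hx2⟩, hx3⟩ := hx
        have hx1r : (a : ℝ) ≤ x := by exact_mod_cast hx1
        have hx2r : (x : ℝ) < (a : ℝ) + L + 1 := by
          have : x < a + L + 1 := by omega
          exact_mod_cast this
        rw [mem_union]
        rcases two_split J x with h | ⟨j, hj, M, hM, rfl⟩
        · left
          rw [mem_ap]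
          exact ⟨⟨hx1r, hx2r⟩, by rw [sub_zero]; exact h⟩
        · right
          rw [mem_biUnion]
          refine ⟨j, mem_range.2 hj, ?_⟩
          rw [mem_image]
          refine ⟨M, ?_, rfl⟩
          rw [hbad]
          simp only
          rw [mem_cls]
          push_cast at hx1r hx2r
          have p2 : (0 : ℝ) < 2 ^ j := by positivity
          refine ⟨⟨?_, ?_⟩, hM, ?_, by simp⟩
          · rw [hα]
            simp only
            rw [div_le_iff₀ p2]
            linarith
          · rw [hβ]
            simp only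
            rw [lt_div_iff₀ p2]
            linarith
          · intro hG
            apply hx3
            rw [mem_biUnion]
            refine ⟨j, mem_range.2 hj, ?_⟩
            obtain ⟨h1, h2⟩ := hdata j hj
            have hqq : √ (√ (Real.log (A / 2 ^ j))) * √ (√ (Real.log (A / 2 ^ j))) =
                √ (Real.log (A / 2 ^ j)) := Real.mul_self_sqrt (Real.sqrt_nonneg _)
            apply Vj_mem hd (hαβ j) hlam0.le (D := Dj j) _ hN1' _ _ hM hG
            · rw [hβα, hDj]
              simp only
              refine le_trans ?_ hR1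
              have h3 : √ (Real.log (A / 2 ^ j)) ≤ √ (2 * y) := Real.sqrt_le_sqrt h2
              calc 40 * (c * √ (√ (Real.log (A / 2 ^ j)))) * √ (√ (Real.log (A / 2 ^ j)))
                  = 40 * c * (√ (√ (Real.log (A / 2 ^ j))) * √ (√ (Real.log (A / 2 ^ j)))) := by ring
                _ = 40 * c * √ (Real.log (A / 2 ^ j)) := by rw [hqq]
                _ ≤ 40 * c * √ (2 * y) := mul_le_mul_of_nonneg_left h3 (by positivity)
            · rw [hβα]
              refine le_trans ?_ ht
              have hjJ : (j : ℝ) ≤ J := by exact_mod_cast hj.le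
              have h4 : 40 * c * √ (2 * y) ≤ 40 * c * (4 * y) :=
                mul_le_mul_of_nonneg_left (by linarith) (by positivity)
              have h5 : (J : ℝ) ≤ 2 * J * y := by
                have : (0 : ℝ) ≤ J := Nat.cast_nonneg J
                nlinarith
              have h6 : (R' : ℝ) ≤ (40 * c * 4 + 2) * y := by nlinarith
              nlinarith
            · rw [hβα]; exact h1.le
      have h1 := card_le_card hsub
      have h2 := card_union_le (ap (a : ℝ) ((a : ℝ) + L + 1) (2 ^ J) 0)
        ((range J).biUnion (fun j => (bad j).image (fun M => 2 ^ j * M)))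
      have h3 : (((range J).biUnion (fun j => (bad j).image (fun M => 2 ^ j * M))).card : ℝ) ≤
          ε / 4 * A := by
        refine (by exact_mod_cast card_biUnion_le : ((_ : ℕ) : ℝ) ≤ ((_ : ℕ) : ℝ)).trans ?_
        push_cast
        have h4 : ∀ j ∈ range J, (((bad j).image (fun M => 2 ^ j * M)).card : ℝ) ≤
            ε / 8 * A * (1 / 2) ^ j := by
          intro j hj
          have h5 : (((bad j).image (fun M => 2 ^ j * M)).card : ℝ) ≤ (bad j).card := by
            exact_mod_cast card_image_le
          refine h5.trans ((hbadc j (mem_range.1 hj)).trans (le_of_eq ?_))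
          rw [one_div, inv_pow]
          field_simp
          ring
        refine (sum_le_sum h4).trans ?_
        rw [← mul_sum]
        have h6 : ∑ j ∈ range J, (1 / 2 : ℝ) ^ j ≤ 2 := by
          rw [geom_sum_eq (by norm_num)]
          have : (0 : ℝ) ≤ (1 / 2) ^ J := by positivity
          rw [div_le_iff_of_neg (by norm_num)]
          linarith
        have h7 : 0 ≤ ε / 8 * A := by positivity
        calc ε / 8 * A * ∑ j ∈ range J, (1 / 2 : ℝ) ^ j ≤ ε / 8 * A * 2 :=
              mul_le_mul_of_nonneg_left h6 h7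
          _ = ε / 4 * A := by ring
      have h4 := ap_card_le (a := (a : ℝ)) (b := (a : ℝ) + L + 1) (by linarith) (q := 2 ^ J)
        (by positivity) 0
      have h5 : ((a : ℝ) + L + 1 - a) / ((2 ^ J : ℤ) : ℝ) ≤ ε / 8 * A := by
        push_cast
        rw [show (a : ℝ) + L + 1 - a = A by rw [hA]; ring, div_eq_mul_inv, mul_comm]
        apply mul_le_mul_of_nonneg_right _ (by positivity)
        rw [one_div, inv_pow] at hJ
        exact hJ.le
      have h6 : ((((Icc a (a + L)).filter (fun x => (Cd d)^[t] x ∉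
          (range J).biUnion (fun j => Vj d (α j) (β j) lam R' N1 t j))).card : ℕ) : ℝ) ≤
          ((ap (a : ℝ) ((a : ℝ) + L + 1) (2 ^ J) 0).card : ℝ) +
          (((range J).biUnion (fun j => (bad j).image (fun M => 2 ^ j * M))).card : ℝ) := by
        exact_mod_cast h1.trans h2
      have h7 : 1 ≤ ε * L / 4 := by
        rw [div_le_iff₀ hε] at hL2
        linarith
      have h8 : A ≤ 3 / 2 * L := by rw [hA]; linarith
      nlinarith

end Pool.Agent.Q158.Col3
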