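import Pool.Agent.Q158.Col3.Scales

/-! Few values for most integers of any interval. -/

set_option autoImplicit false

namespace Pool.Agent.Q158.Col3

open Pool.Agent.H320R2.PD Finset
open Pool.Agent.H499R2.ND hiding XX mem_XX XX_word XX_card shift_card star PB stage

/-- the `3x+d` map -/
def Cd (d x : ℤ) : ℤ := if x % 2 = 0 then x / 2 else 3 * x + d

theorem Cd_pow (d : ℤ) (e : ℕ) (z : ℤ) : (Cd d)^[e] (2 ^ e * z) = z := by
  induction e with
  | zero => simp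
  | succ e ih =>
    rw [Function.iterate_succ_apply]
    have : Cd d (2 ^ (e + 1) * z) = 2 ^ e * z := by
      unfold Cd
      rw [pow_succ, if_pos (by
        rw [show (2 : ℤ) ^ e * 2 * z = 2 * (2 ^ e * z) by ring]
        exact Int.mul_emod_right 2 _), show (2 : ℤ) ^ e * 2 * z = 2 * (2 ^ e * z) by ring]
      exact Int.mul_ediv_cancel_left _ (by norm_num)
    rw [this, ih]

theorem Cd_word {d : ℤ} (hd : Odd d) (w : List ℕ) : (∀ a ∈ w, 1 ≤ a) → ∀ M y : ℤ, Odd M → Odd y →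
    Vw d w M y → (Cd d)^[w.sum + w.length] M = y := by
  induction w using List.reverseRecOn with
  | nil =>
    intro _ M y _ _ h
    unfold Vw at h
    simp [Wo] at h
    simpa using h
  | append_singleton u e ih =>
    intro hw M y hM hy h
    have hu : ∀ a ∈ u, 1 ≤ a := fun a ha => hw a (by simp [ha])
    obtain ⟨M₁, hM₁, h1, h2⟩ := Vw_snoc hd hu hy h
    have h3 := ih hu M₁ y hM₁ hy h2
    have h4 : (Cd d)^[e + 1] M = M₁ := by
      rw [Function.iterate_succ_apply]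
      have : Cd d M = 3 * M + d := by
        unfold Cd
        have := Int.odd_iff.1 hM
        rw [if_neg (by omega)]
      rw [this, h1, Cd_pow]
    rw [List.sum_append, List.length_append, List.sum_singleton, List.length_singleton,
      show u.sum + e + (u.length + 1) = (u.sum + u.length) + (e + 1) by ring,
      Function.iterate_add_apply, h4, h3]

theorem two_split (J : ℕ) (x : ℤ) : (2 : ℤ) ^ J ∣ x ∨ ∃ j < J, ∃ M : ℤ, Odd M ∧ x = 2 ^ j * M := by
  induction J generalizing x with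
  | zero => left; simp
  | succ J ih =>
    rcases Int.even_or_odd x with h | h
    · obtain ⟨y, rfl⟩ := h
      rcases ih y with h1 | ⟨j, hj, M, hM, rfl⟩
      · left
        rw [← two_mul, pow_succ, mul_comm]
        exact mul_dvd_mul_left 2 h1
      · right
        exact ⟨j + 1, by omega, M, hM, by ring⟩
    · right
      exact ⟨0, by omega, x, h, by simp⟩

/-- the values at the time `t` that come from one window -/
noncomputable def Vj (d : ℤ) (α β lam : ℝ) (R' N1 t j : ℕ) : Finset ℤ := by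
  classical
  exact (Icc (-(R' : ℤ)) R').biUnion fun δ => (range N1).biUnion fun i =>
    (let k : ℕ := (⌈(Real.log (β - α) - δ * Real.log 2 - lam) / Real.log (4 / 3)⌉ + (i : ℤ)).toNat
     let T : ℕ := (2 * (k : ℤ) + δ).toNat
     if (β - α) * 3 ^ k / 2 ^ T ≤ Real.exp lam then
       (Ico ⌈α * 3 ^ k / 2 ^ T⌉ ⌈β * 3 ^ k / 2 ^ T⌉).image ((Cd d)^[t - (j + T + k)]) else ∅)

theorem Vj_card (d : ℤ) {α β : ℝ} (hαβ : α ≤ β) (lam : ℝ) (R' N1 t j : ℕ) :
    ((Vj d α β lam R' N1 t j).card : ℝ) ≤ (2 * R' + 1) * (N1 * (Real.exp lam + 1)) := by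
  classical
  unfold Vj
  refine (by exact_mod_cast card_biUnion_le : ((_ : ℕ) : ℝ) ≤ ((_ : ℕ) : ℝ)).trans ?_
  push_cast
  have h1 : ∀ δ ∈ Icc (-(R' : ℤ)) R', (((range N1).biUnion fun i =>
    (let k : ℕ := (⌈(Real.log (β - α) - δ * Real.log 2 - lam) / Real.log (4 / 3)⌉ + (i : ℤ)).toNat
     let T : ℕ := (2 * (k : ℤ) + δ).toNat
     if (β - α) * 3 ^ k / 2 ^ T ≤ Real.exp lam then
       (Ico ⌈α * 3 ^ k / 2 ^ T⌉ ⌈β * 3 ^ k / 2 ^ T⌉).image ((Cd d)^[t - (j + T + k)]) else ∅)).card : ℝ)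
        ≤ N1 * (Real.exp lam + 1) := by
    intro δ _
    refine (by exact_mod_cast card_biUnion_le : ((_ : ℕ) : ℝ) ≤ ((_ : ℕ) : ℝ)).trans ?_
    push_cast
    have h2 : ∀ i ∈ range N1, (((let k : ℕ := (⌈(Real.log (β - α) - δ * Real.log 2 - lam) /
          Real.log (4 / 3)⌉ + (i : ℤ)).toNat
        let T : ℕ := (2 * (k : ℤ) + δ).toNat
        if (β - α) * 3 ^ k / 2 ^ T ≤ Real.exp lam then
          (Ico ⌈α * 3 ^ k / 2 ^ T⌉ ⌈β * 3 ^ k / 2 ^ T⌉).image ((Cd d)^[t - (j + T + k)]) else ∅) :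
            Finset ℤ).card : ℝ) ≤ Real.exp lam + 1 := by
      intro i _
      simp only
      set k : ℕ := (⌈(Real.log (β - α) - δ * Real.log 2 - lam) / Real.log (4 / 3)⌉ + (i : ℤ)).toNat
      set T : ℕ := (2 * (k : ℤ) + δ).toNat
      split_ifs with hc
      · have h3 := (card_image_le (s := Ico ⌈α * 3 ^ k / 2 ^ T⌉ ⌈β * 3 ^ k / 2 ^ T⌉)
          (f := (Cd d)^[t - (j + T + k)]))
        have h4 : ((Ico ⌈α * 3 ^ k / 2 ^ T⌉ ⌈β * 3 ^ k / 2 ^ T⌉).card : ℝ) ≤
            (β - α) * 3 ^ k / 2 ^ T + 1 := by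
          have hle : α * 3 ^ k / 2 ^ T ≤ β * 3 ^ k / 2 ^ T := by gcongr
          rw [Int.card_Ico]
          have h5 : ⌈α * 3 ^ k / 2 ^ T⌉ ≤ ⌈β * 3 ^ k / 2 ^ T⌉ := Int.ceil_le_ceil hle
          have h6 : ((⌈β * 3 ^ k / 2 ^ T⌉ - ⌈α * 3 ^ k / 2 ^ T⌉).toNat : ℤ) =
              ⌈β * 3 ^ k / 2 ^ T⌉ - ⌈α * 3 ^ k / 2 ^ T⌉ := Int.toNat_of_nonneg (by linarith)
          have h7 : (((⌈β * 3 ^ k / 2 ^ T⌉ - ⌈α * 3 ^ k / 2 ^ T⌉).toNat : ℕ) : ℝ) =
              (⌈β * 3 ^ k / 2 ^ T⌉ : ℝ) - ⌈α * 3 ^ k / 2 ^ T⌉ := by exact_mod_cast h6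
          rw [h7]
          have h8 := Int.ceil_lt_add_one (β * 3 ^ k / 2 ^ T)
          have h9 := Int.le_ceil (α * 3 ^ k / 2 ^ T)
          have e : (β - α) * 3 ^ k / 2 ^ T = β * 3 ^ k / 2 ^ T - α * 3 ^ k / 2 ^ T := by ring
          rw [e]
          linarith
        have h5 : (((Ico ⌈α * 3 ^ k / 2 ^ T⌉ ⌈β * 3 ^ k / 2 ^ T⌉).image
          ((Cd d)^[t - (j + T + k)])).card : ℝ) ≤
            ((Ico ⌈α * 3 ^ k / 2 ^ T⌉ ⌈β * 3 ^ k / 2 ^ T⌉).card : ℝ) := by exact_mod_cast h3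
        linarith
      · rw [card_empty, Nat.cast_zero]
        positivity
    refine (sum_le_card_nsmul _ _ _ h2).trans (le_of_eq ?_)
    rw [card_range, nsmul_eq_mul]
  refine (sum_le_card_nsmul _ _ _ h1).trans (le_of_eq ?_)
  rw [Int.card_Icc, nsmul_eq_mul]
  have : ((R' : ℤ) + 1 - (-(R' : ℤ))).toNat = 2 * R' + 1 := by omega
  rw [this]
  push_cast
  ring

theorem log43 : 1 / 4 ≤ Real.log (4 / 3) := by
  have h1 := Real.one_sub_inv_le_log_of_pos (show (0 : ℝ) < 4 / 3 by norm_num)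
  norm_num at h1
  linarith

/-- good points have their value in `Vj` -/
theorem Vj_mem {d : ℤ} (hd : Odd d) {D lam α β : ℝ} (hαβ : α < β) (hlam : 0 ≤ lam) {R' N1 t j : ℕ}
    (hR : 40 * D * √ (√ (Real.log (β - α))) ≤ R') (hN : 4 * lam + 1 ≤ N1)
    (ht : (j : ℝ) + 3 * (4 * (Real.log (β - α) + R')) + R' ≤ t)
    (hℓ : 0 ≤ Real.log (β - α)) {M : ℤ} (hM : Odd M)
    (hG : M ∈ Gd d D lam α β) : (Cd d)^[t] (2 ^ j * M) ∈ Vj d α β lam R' N1 t j := by
  classical
  obtain ⟨w, y, h1, h2, h3, h4, h5, h6, h7, h8⟩ := hG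
  set k := w.length with hk
  set T := w.sum with hT
  have hA : 0 < β - α := by linarith
  have hlog : Real.log ((β - α) * 3 ^ k / 2 ^ T) = Real.log (β - α) + k * Real.log 3 - T * Real.log 2 := by
    rw [Real.log_div (by positivity) (by positivity), Real.log_mul (by positivity) (by positivity),
      Real.log_pow, Real.log_pow]
  set δ : ℤ := (T : ℤ) - 2 * k with hδ
  have hδR : |(δ : ℝ)| ≤ R' := by
    rw [hδ]
    push_cast
    exact h8.trans hR
  have hδ2 := abs_le.1 hδR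
  have hl43 : Real.log (4 / 3) = 2 * Real.log 2 - Real.log 3 := by
    rw [Real.log_div (by norm_num) (by norm_num), show (4 : ℝ) = 2 ^ 2 by norm_num, Real.log_pow]
    push_cast; ring
  have hTk : (T : ℝ) = 2 * k + δ := by rw [hδ]; push_cast; ring
  have hlog2 : Real.log ((β - α) * 3 ^ k / 2 ^ T) =
      Real.log (β - α) - δ * Real.log 2 - k * Real.log (4 / 3) := by
    rw [hlog, hTk, hl43]; ring
  rw [hlog2] at h6 h7
  have hl := log43
  have hl0 : 0 < Real.log (4 / 3) := by linarith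
  have hl2 := Real.log_two_lt_d9
  have hl2' := Real.log_two_gt_d9
  set X : ℝ := (Real.log (β - α) - δ * Real.log 2 - lam) / Real.log (4 / 3) with hX
  have hkX : X ≤ k := by
    rw [hX, div_le_iff₀ hl0]; linarith
  have hkX2 : (k : ℝ) ≤ X + 4 * lam := by
    have e : X = (Real.log (β - α) - δ * Real.log 2) / Real.log (4 / 3) - lam / Real.log (4 / 3) := by
      rw [hX, sub_div]
    have e2 : (k : ℝ) ≤ (Real.log (β - α) - δ * Real.log 2) / Real.log (4 / 3) := by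
      rw [le_div_iff₀ hl0]; linarith
    have e3 : lam / Real.log (4 / 3) ≤ 4 * lam := by
      rw [div_le_iff₀ hl0]
      nlinarith
    linarith
  -- the size of k
  have hkb : (k : ℝ) ≤ 4 * (Real.log (β - α) + R') := by
    have e1 : (k : ℝ) * (1 / 4) ≤ k * Real.log (4 / 3) :=
      mul_le_mul_of_nonneg_left hl (Nat.cast_nonneg k)
    have e2 : -(δ : ℝ) * Real.log 2 ≤ R' * 1 := by
      have e3 : -(δ : ℝ) * Real.log 2 ≤ R' * Real.log 2 :=
        mul_le_mul_of_nonneg_right (by linarith) (by linarith)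
      have e4 : (R' : ℝ) * Real.log 2 ≤ R' * 1 :=
        mul_le_mul_of_nonneg_left (by linarith) (Nat.cast_nonneg _)
      linarith
    linarith
  have htime : j + T + k ≤ t := by
    have : (j : ℝ) + T + k ≤ t := by
      rw [hTk]
      linarith
    exact_mod_cast this
  -- the index
  have hi1 : ⌈X⌉ ≤ (k : ℤ) := Int.ceil_le.2 (by exact_mod_cast hkX)
  obtain ⟨i, hi⟩ : ∃ i : ℕ, (k : ℤ) = ⌈X⌉ + i := ⟨((k : ℤ) - ⌈X⌉).toNat, by
    rw [Int.toNat_of_nonneg (by linarith)]; ring⟩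
  have hiN : i < N1 := by
    have e1 := Int.le_ceil X
    have e2 : (k : ℝ) = ⌈X⌉ + i := by exact_mod_cast hi
    have : (i : ℝ) < N1 := by linarith
    exact_mod_cast this
  have hδI : δ ∈ Icc (-(R' : ℤ)) R' := by
    rw [mem_Icc]
    constructor
    · exact_mod_cast hδ2.1
    · exact_mod_cast hδ2.2
  unfold Vj
  rw [mem_biUnion]
  refine ⟨δ, hδI, ?_⟩
  rw [mem_biUnion]
  refine ⟨i, mem_range.2 hiN, ?_⟩
  have ek : (⌈X⌉ + (i : ℤ)).toNat = k := by rw [← hi]; simp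
  simp only
  rw [ek]
  have eT : (2 * (k : ℤ) + δ).toNat = T := by
    rw [hδ]
    have : 2 * (k : ℤ) + ((T : ℤ) - 2 * k) = T := by ring
    rw [this]; simp
  rw [eT, if_pos (by
    rw [← Real.log_le_iff_le_exp (by positivity), hlog2]
    exact h7), mem_image]
  refine ⟨y, ?_, ?_⟩
  · rw [mem_win]
    exact ⟨h4, h5⟩
  · have e1 := Cd_word hd w h1 M y hM h2 h3
    rw [← hT, ← hk] at e1
    have e2 := Cd_pow d j M
    rw [← e1, ← e2, ← Function.iterate_add_apply, ← Function.iterate_add_apply]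
    congr 1
    · congr 1
      omega
    · rw [e2]

end Pool.Agent.Q158.Col3
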