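import Pool.Agent.Q158.Col3.Stage

/-! Iteration over the scales: most starting points of any window are led to few bounded windows. -/

set_option autoImplicit false

namespace Pool.Agent.Q158.Col3

open Pool.Agent.H320R2.PD Finset
open Pool.Agent.H499R2.ND hiding XX mem_XX XX_word XX_card shift_card star PB stage

/-- The starting points whose trajectory (of a window `[a,b)`) meets a window
`[a 3^k/2^T, b 3^k/2^T)` of logarithmic length between `0` and `lam`, `k` being the number of odd steps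
and `T` the number of halvings, with `|T - 2k| ≤ 40 D t^(1/4)`, `t = log (b - a)`. -/
def Gd (d : ℤ) (D lam a b : ℝ) : Set ℤ :=
  {M | ∃ (w : List ℕ) (x : ℤ), (∀ e ∈ w, 1 ≤ e) ∧ Odd x ∧ Vw d w M x ∧
    a * 3 ^ w.length / 2 ^ w.sum ≤ x ∧ (x : ℝ) < b * 3 ^ w.length / 2 ^ w.sum ∧
    0 ≤ Real.log ((b - a) * 3 ^ w.length / 2 ^ w.sum) ∧
    Real.log ((b - a) * 3 ^ w.length / 2 ^ w.sum) ≤ lam ∧
    |(w.sum : ℝ) - 2 * w.length| ≤ 40 * D * √ (√ (Real.log (b - a)))}

theorem Gd_small {d : ℤ} {D lam a b : ℝ} (hD : 0 < D) (h0 : 0 ≤ Real.log (b - a))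
    (h1 : Real.log (b - a) ≤ lam) {M : ℤ} (hM : Odd M) (ha : a ≤ M) (hb : (M : ℝ) < b) :
    M ∈ Gd d D lam a b := by
  refine ⟨[], M, by simp, hM, ?_, ?_, ?_, ?_, ?_, ?_⟩
  · unfold Vw; simp [Wo]
  · simpa using ha
  · simpa using hb
  · simpa using h0
  · simpa using h1
  · simp
    positivity

theorem Vw_comp {d : ℤ} {w w' : List ℕ} {M x y : ℤ} (h : Vw d w M x) (h' : Vw d w' x y) :
    Vw d (w' ++ w) M y := by
  unfold Vw at *
  rw [List.length_append, List.sum_append, Wo_append, pow_add, pow_add]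
  push_cast
  linear_combination 3 ^ w'.length * h + 2 ^ w.sum * h'

theorem qroot {t t' : ℝ} (h0 : 0 ≤ t) (h : t' ≤ 0.9 * t) : √ (√ t') ≤ 0.975 * √ (√ t) := by
  have h1 : √ (√ t') ≤ √ (√ (0.9 * t)) := Real.sqrt_le_sqrt (Real.sqrt_le_sqrt h)
  have h2 : √ (√ (0.9 * t)) ≤ 0.975 * √ (√ t) := by
    rw [Real.sqrt_le_left (by positivity), mul_pow, Real.sq_sqrt (Real.sqrt_nonneg _),
      Real.sqrt_le_left (by positivity), mul_pow, Real.sq_sqrt h0]
    nlinarith
  exact h1.trans h2

theorem Gd_comp {d : ℤ} {D lam a b : ℝ} (hD : 0 < D) (hab : a < b) (ht : 0 ≤ Real.log (b - a))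
    {w : List ℕ} {M x : ℤ} (hw : ∀ e ∈ w, 1 ≤ e) (hV : Vw d w M x)
    (hnext : Real.log ((b - a) * 3 ^ w.length / 2 ^ w.sum) ≤ 0.9 * Real.log (b - a))
    (hdev : |(w.sum : ℝ) - 2 * w.length| ≤ D * √ (√ (Real.log (b - a))))
    (hx : x ∈ Gd d D lam (a * 3 ^ w.length / 2 ^ w.sum) (b * 3 ^ w.length / 2 ^ w.sum)) :
    M ∈ Gd d D lam a b := by
  obtain ⟨w', y, h1, h2, h3, h4, h5, h6, h7, h8⟩ := hx
  have e0 : b * 3 ^ w.length / 2 ^ w.sum - a * 3 ^ w.length / 2 ^ w.sum =
      (b - a) * 3 ^ w.length / 2 ^ w.sum := by ring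
  have e1 : ∀ z : ℝ, z * 3 ^ w.length / 2 ^ w.sum * 3 ^ w'.length / 2 ^ w'.sum =
      z * 3 ^ (w' ++ w).length / 2 ^ (w' ++ w).sum := by
    intro z
    rw [List.length_append, List.sum_append, pow_add, pow_add]
    field_simp
  rw [e0] at h6 h7 h8
  rw [e1] at h4 h5 h6 h7
  refine ⟨w' ++ w, y, ?_, h2, Vw_comp hV h3, h4, h5, h6, h7, ?_⟩
  · intro e he
    rw [List.mem_append] at he
    rcases he with he | he
    · exact h1 e he
    · exact hw e he
  · rw [List.length_append, List.sum_append, Nat.cast_add, Nat.cast_add]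
    have h9 := qroot ht hnext
    have h10 : 40 * D * √ (√ (Real.log ((b - a) * 3 ^ w.length / 2 ^ w.sum))) ≤
        40 * D * (0.975 * √ (√ (Real.log (b - a)))) :=
      mul_le_mul_of_nonneg_left h9 (by positivity)
    have h11 : |((w'.sum : ℝ) + w.sum) - 2 * ((w'.length : ℝ) + w.length)| ≤
        |(w'.sum : ℝ) - 2 * w'.length| + |(w.sum : ℝ) - 2 * w.length| := by
      rw [show ((w'.sum : ℝ) + w.sum) - 2 * ((w'.length : ℝ) + w.length) =
        ((w'.sum : ℝ) - 2 * w'.length) + ((w.sum : ℝ) - 2 * w.length) by ring]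
      exact abs_add_le _ _
    linarith

theorem PB_mono {S : Set ℤ} {a b : ℝ} (hab : a ≤ b) {m : ℕ} {ρ ρ' : ℝ} (h : ρ ≤ ρ')
    (hP : PB S a b m ρ) : PB S a b m ρ' := by
  intro u v hu
  refine (hP u v hu).trans (mul_le_mul_of_nonneg_right h ?_)
  apply div_nonneg (by linarith) (by positivity)

theorem PB_small {d : ℤ} {D lam a b : ℝ} (hD : 0 < D) (hab : a ≤ b) (h0 : 0 ≤ Real.log (b - a))
    (h1 : Real.log (b - a) ≤ lam) (m : ℕ) {ρ : ℝ} (hρ : 0 ≤ ρ) : PB (Gd d D lam a b)ᶜ a b m ρ := by
  intro u v _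
  have : cls (Gd d D lam a b)ᶜ a b m u v = ∅ := by
    rw [Finset.eq_empty_iff_forall_notMem]
    intro x hx
    rw [mem_cls] at hx
    exact hx.2.2.1 (Gd_small hD h0 h1 hx.2.1 hx.1.1 hx.1.2)
  rw [this, card_empty, Nat.cast_zero]
  apply mul_nonneg hρ
  apply div_nonneg (by linarith) (by positivity)

/-- ALL SCALES -/
theorem scales {d : ℤ} (hd : Odd d) (hd3 : IsCoprime d 3) : ∃ C : ℝ, 0 < C ∧
    ∀ D : ℝ, 0 < D → ∀ lam : ℝ, 1000 ≤ lam → ∀ a b : ℝ, a < b → 0 ≤ Real.log (b - a) → ∀ m : ℕ,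
      (m : ℝ) ^ 2 ≤ Real.log (b - a) → PB (Gd d D lam a b)ᶜ a b m
        (C / lam + 640 * √ (Real.log (b - a)) / D ^ 2) := by
  obtain ⟨C, hC, herr⟩ := err_all d
  refine ⟨20 * C, by positivity, ?_⟩
  intro D hD lam hlam
  have hlam0 : 0 < lam := by linarith
  have main : ∀ n : ℕ, ∀ a b : ℝ, a < b → lam < Real.log (b - a) → Real.log (b - a) ≤ lam + n →
      ∀ m : ℕ, (m : ℝ) ^ 2 ≤ Real.log (b - a) → PB (Gd d D lam a b)ᶜ a b m
        (10 * C * (2 / lam - 1 / Real.log (b - a)) + 640 * √ (Real.log (b - a)) / D ^ 2) := by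
    intro n
    induction n with
    | zero =>
      intro a b hab h1 h2
      exfalso
      rw [Nat.cast_zero] at h2
      linarith
    | succ n ih =>
      intro a b hab h1 h2 m hm
      set A := b - a with hA
      have hA0 : 0 < A := by rw [hA]; linarith
      set t := Real.log A with htd
      have ht1000 : 1000 ≤ t := by linarith
      have htpos : 0 < t := by linarith
      obtain ⟨k, hk⟩ : ∃ k : ℕ, k = ⌊t / 2⌋₊ := ⟨_, rfl⟩
      obtain ⟨m', hm'⟩ : ∃ m' : ℕ, m' = ⌊Real.sqrt (0.8 * t)⌋₊ := ⟨_, rfl⟩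
      have hk2 : t / 2 - 1 ≤ k := by rw [hk]; linarith [Nat.lt_floor_add_one (t / 2)]
      have hk1N : 1 ≤ k := by
        have : (1 : ℝ) ≤ k := by linarith
        exact_mod_cast this
      have hm'sq : (m' : ℝ) ^ 2 ≤ 0.8 * t := by
        have h1 : (m' : ℝ) ≤ Real.sqrt (0.8 * t) := by
          rw [hm']; exact Nat.floor_le (Real.sqrt_nonneg _)
        calc (m' : ℝ) ^ 2 ≤ (Real.sqrt (0.8 * t)) ^ 2 :=
              pow_le_pow_left₀ (Nat.cast_nonneg _) h1 2
          _ = 0.8 * t := Real.sq_sqrt (by linarith)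
      have hm'k : m' ≤ k := by
        have : (m' : ℝ) ≤ k := by
          have h0 : (0 : ℝ) ≤ m' := Nat.cast_nonneg _
          by_contra hcon
          push Not at hcon
          nlinarith
        exact_mod_cast this
      obtain ⟨r, hr1, hr2, hE⟩ := herr D hD A hA0 ht1000 k m m' hm hk hm'
      have hrk : 2 * k - r + r = 2 * k := by omega
      -- the bound of the next scales
      obtain ⟨σ, hσ0, hσ1, hσ2⟩ : ∃ σ : ℝ, 0 ≤ σ ∧ (∀ t' : ℝ, lam < t' → t' ≤ 0.9 * t →
          2 / lam - 1 / t' ≤ σ) ∧ 10 * C * σ + C / t ≤ 10 * C * (2 / lam - 1 / t) := by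
        have hit : 1 / t ≤ 1 / lam := one_div_le_one_div_of_le hlam0 h1.le
        have hlam2 : 2 / lam = 2 * (1 / lam) := by ring
        have hCt : C / t = C * (1 / t) := by ring
        have h1t : 0 < 1 / t := by positivity
        rcases lt_or_ge (0.9 * t) lam with hc | hc
        · refine ⟨0, le_rfl, fun t' h3 h4 => by linarith, ?_⟩
          rw [hlam2, hCt]
          nlinarith
        · refine ⟨2 / lam - 1 / (0.9 * t), ?_, fun t' h3 h4 => ?_, ?_⟩
          · have : 1 / (0.9 * t) ≤ 1 / lam := one_div_le_one_div_of_le hlam0 hc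
            rw [hlam2]
            have : 0 < 1 / lam := by positivity
            linarith
          · have : 1 / (0.9 * t) ≤ 1 / t' := one_div_le_one_div_of_le (by linarith) h4
            linarith
          · have e : 1 / (0.9 * t) = (10 / 9) * (1 / t) := by
              field_simp
              norm_num
            rw [e, hCt]
            nlinarith
      set ρ : ℝ := 10 * C * σ + 640 * √ (0.9 * t) / D ^ 2 with hρd
      have hρ : 0 ≤ ρ := by
        rw [hρd]
        positivity
      have hst := stage hd hd3 (S := (Gd d D lam a b)ᶜ)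
        (S' := fun T => (Gd d D lam (a * 3 ^ k / 2 ^ T) (b * 3 ^ k / 2 ^ T))ᶜ) hab hk1N hm'k (m := m)
        (Tl := 2 * k - r) (Tm := 2 * k + r) (by omega) (by
          intro w M x hwl hw hT1 hT2 hMo hxo hMS hV hxG
          apply hMS
          have hnx := (next_scale hA0 ht1000 hk (T := w.sum) (by omega) (by omega)).2
          apply Gd_comp hD hab htpos.le hw hV
          · rw [hwl, ← hA, ← htd]; exact hnx
          · rw [hwl, ← hA, ← htd]
            refine le_trans ?_ hr2
            rw [abs_le]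
            have c1 : (2 : ℝ) * k ≤ w.sum + r := by
              have : 2 * k ≤ w.sum + r := by omega
              exact_mod_cast this
            have c2 : (w.sum : ℝ) ≤ 2 * k + r := by exact_mod_cast hT2
            constructor <;> linarith
          · rw [hwl]; exact hxG) hρ (by
          intro T hT1 hT2
          have hn := next_scale hA0 ht1000 hk (T := T) (by omega) (by omega)
          have e0 : b * 3 ^ k / 2 ^ T - a * 3 ^ k / 2 ^ T = A * 3 ^ k / 2 ^ T := by rw [hA]; ring
          have hab' : a * 3 ^ k / 2 ^ T < b * 3 ^ k / 2 ^ T := by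
            have : 0 < A * 3 ^ k / 2 ^ T := by positivity
            linarith
          set t' := Real.log (A * 3 ^ k / 2 ^ T) with ht'
          have ht'0 : 0 ≤ t' := by linarith [hn.1]
          rcases le_or_gt t' lam with hc | hc
          · apply PB_small hD hab'.le _ _ m' hρ
            · rw [e0]; exact ht'0
            · rw [e0]; exact hc
          · have hih := ih (a * 3 ^ k / 2 ^ T) (b * 3 ^ k / 2 ^ T) hab' (by rw [e0]; exact hc) (by
              rw [e0]
              push_cast at h2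
              linarith [hn.2]) m' (by rw [e0]; linarith [hn.1])
            rw [e0] at hih
            refine PB_mono hab'.le ?_ hih
            rw [hρd, ← ht']
            have f1 := hσ1 t' hc hn.2
            have f2 : √ t' ≤ √ (0.9 * t) := Real.sqrt_le_sqrt hn.2
            have f3 : 10 * C * (2 / lam - 1 / t') ≤ 10 * C * σ :=
              mul_le_mul_of_nonneg_left f1 (by positivity)
            have f4 : 640 * √ t' / D ^ 2 ≤ 640 * √ (0.9 * t) / D ^ 2 := by gcongr
            linarith)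
      refine PB_mono hab.le ?_ hst
      have g1 : √ (0.9 * t) ≤ 0.95 * √ t := by
        rw [Real.sqrt_le_left (by positivity), mul_pow, Real.sq_sqrt htpos.le]
        nlinarith
      have g2 : 640 * √ (0.9 * t) / D ^ 2 + 32 * √ t / D ^ 2 ≤ 640 * √ t / D ^ 2 := by
        rw [← add_div]
        apply div_le_div_of_nonneg_right _ (by positivity)
        linarith
      rw [hρd]
      linarith
  intro a b hab h0 m hm
  rcases le_or_gt (Real.log (b - a)) lam with hc | hc
  · exact PB_small hD hab.le h0 hc m (by positivity)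
  · obtain ⟨n, hn⟩ := exists_nat_ge (Real.log (b - a) - lam)
    refine PB_mono hab.le ?_ (main n a b hab hc (by linarith) m hm)
    have h1 : 0 < 1 / Real.log (b - a) := by
      have : 0 < Real.log (b - a) := by linarith
      positivity
    have h2 : 20 * C / lam = 10 * C * (2 / lam) := by ring
    rw [h2]
    have h3 : 10 * C * (2 / lam - 1 / Real.log (b - a)) ≤ 10 * C * (2 / lam) :=
      mul_le_mul_of_nonneg_left (by linarith) (by positivity)
    linarith

end Pool.Agent.Q158.Col3
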