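import Pool.Agent.Q158.Col3.Star

/-! One stage for the points of an arbitrary window, and the error bound. -/

set_option autoImplicit false

namespace Pool.Agent.Q158.Col3

open Pool.Agent.H320R2.PD Finset
open Pool.Agent.H499R2.ND hiding XX mem_XX XX_word XX_card shift_card star PB stage

/-- `S` has relative density at most `ρ` in all classes mod `3^m` of odd integers of `[a,b)` -/
def PB (S : Set ℤ) (a b : ℝ) (m : ℕ) (ρ : ℝ) : Prop :=
  ∀ u v : ℤ, IsCoprime u 3 → ((cls S a b m u v).card : ℝ) ≤ ρ * ((b - a) / (2 * 3 ^ m))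

/-- the total error of one stage, relative to the main term -/
noncomputable def Err2 (d : ℤ) (A : ℝ) (k m m' Tl Tm : ℕ) : ℝ :=
  (1 + 2 ^ Tm * (2 * 3 ^ m / A))
      * ∑ T ∈ range (k * (3 * k) + 1), dev (FWT (3 * k) k T) wwt (fun w => (Wo w : ℤ)) (k + m) m'
    + (1 - ∑ w ∈ GW (3 * k) k Tl Tm, wwt w)
    + (1 + (|(d : ℝ)| + 2) * 2 ^ Tm) * (2 * 3 ^ m / A)

theorem mass_le_one (k Tl Tm : ℕ) : ∑ w ∈ GW (3 * k) k Tl Tm, wwt w ≤ 1 := by
  refine le_trans ?_ (sum_wwt_le (3 * k) k)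
  unfold GW
  apply sum_le_sum_of_subset_of_nonneg (filter_subset _ _)
  intro w _ _; unfold wwt; positivity

/-- one stage -/
theorem stage {d : ℤ} (hd : Odd d) (hd3 : IsCoprime d 3) {S : Set ℤ} {S' : ℕ → Set ℤ} {a b : ℝ}
    (hab : a < b) {k m m' Tl Tm : ℕ} (hk : 1 ≤ k) (hm' : m' ≤ k) (hTm : 20 * Tm ≤ 41 * k)
    (hS : ∀ (w : List ℕ) (M x : ℤ), w.length = k → (∀ e ∈ w, 1 ≤ e) → Tl ≤ w.sum → w.sum ≤ Tm →
      Odd M → Odd x → M ∈ S → Vw d w M x → x ∈ S' w.sum)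
    {ρ : ℝ} (hρ : 0 ≤ ρ)
    (h : ∀ T : ℕ, Tl ≤ T → T ≤ Tm → PB (S' T) (a * 3 ^ k / 2 ^ T) (b * 3 ^ k / 2 ^ T) m' ρ) :
    PB S a b m (ρ + Err2 d (b - a) k m m' Tl Tm) := by
  intro u v hu
  obtain ⟨c, hc⟩ := cls_unit S a b m hu v
  rw [hc]
  set A := b - a with hA
  have hA0 : 0 < A := by rw [hA]; linarith
  have hTm' : Tm ≤ k * (3 * k) := by nlinarith
  have h1 := star hd hd3 hab.le (3 * k) k m m' Tl Tm hk hm' hTm' hS c
  rw [← hA] at h1
  set G := GW (3 * k) k Tl Tm with hG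
  have h2 : ∑ w ∈ G, ((cls (S' w.sum) (a * 3 ^ k / 2 ^ w.sum) (b * 3 ^ k / 2 ^ w.sum) m'
            (2 ^ w.sum) (d * Wo w)).card : ℝ) ≤ ∑ w ∈ G, ρ * (A * 3 ^ k / (2 * 3 ^ m')) * wwt w := by
    apply sum_le_sum
    intro w hw
    rw [hG] at hw; unfold GW at hw; rw [mem_filter] at hw
    have h3 := h w.sum hw.2.1 hw.2.2 (2 ^ w.sum) (d * Wo w) (cop_two_pow _)
    refine h3.trans (le_of_eq ?_)
    unfold wwt
    rw [one_div, inv_pow, hA]
    field_simp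
  have hmass1 : ∑ w ∈ G, wwt w ≤ 1 := mass_le_one k Tl Tm
  rw [← mul_sum] at h2
  have h4 : (∑ w ∈ G, ((cls (S' w.sum) (a * 3 ^ k / 2 ^ w.sum) (b * 3 ^ k / 2 ^ w.sum) m'
            (2 ^ w.sum) (d * Wo w)).card : ℝ)) / 3 ^ (k + m - m') ≤ ρ * (A / (2 * 3 ^ m)) := by
    rw [div_le_iff₀ (by positivity)]
    refine h2.trans ?_
    have h5 : ρ * (A * 3 ^ k / (2 * 3 ^ m')) * ∑ w ∈ G, wwt w ≤ ρ * (A * 3 ^ k / (2 * 3 ^ m')) * 1 :=
      mul_le_mul_of_nonneg_left hmass1 (by positivity)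
    refine h5.trans (le_of_eq ?_)
    have h6 : (3 : ℝ) ^ (k + m - m') * 3 ^ m' = 3 ^ k * 3 ^ m := by
      rw [← pow_add, ← pow_add]; congr 1; omega
    have h7 : (3 : ℝ) ^ k = 3 ^ (k + m - m') * 3 ^ m' / 3 ^ m := by
      rw [h6]; field_simp
    rw [h7]
    field_simp
  have hfac : A / (2 * 3 ^ m) * (2 * 3 ^ m / A) = 1 := by
    field_simp
  have hEq : (ρ + Err2 d A k m m' Tl Tm) * (A / (2 * 3 ^ m)) = ρ * (A / (2 * 3 ^ m))
      + (A / (2 * 3 ^ m) + 2 ^ Tm)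
          * (∑ T ∈ range (k * (3 * k) + 1), dev (FWT (3 * k) k T) wwt (fun w => (Wo w : ℤ)) (k + m) m')
      + A / (2 * 3 ^ m) * (1 - ∑ w ∈ G, wwt w) + 1 + (|(d : ℝ)| + 2) * 2 ^ Tm := by
    unfold Err2
    rw [← hG]
    set δ := ∑ T ∈ range (k * (3 * k) + 1), dev (FWT (3 * k) k T) wwt (fun w => (Wo w : ℤ)) (k + m) m'
    set X := (2 : ℝ) ^ Tm
    set Y := A / (2 * 3 ^ m) with hY
    set Z := 2 * 3 ^ m / A with hZ
    set μ := ∑ w ∈ G, wwt w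
    have : (ρ + ((1 + X * Z) * δ + (1 - μ) + (1 + (|(d : ℝ)| + 2) * X) * Z)) * Y
        = ρ * Y + (Y + X * (Y * Z)) * δ + Y * (1 - μ) + (1 + (|(d : ℝ)| + 2) * X) * (Y * Z) := by ring
    rw [this, hfac]
    ring
  rw [hEq]
  linarith

/-- mass of the words with a larger deviation -/
theorem mass_diff {k r : ℕ} (hr : 20 * r ≤ k) (hk : 2 ≤ k) :
    (1 - ∑ w ∈ GW (3 * k) k (2 * k - r) (2 * k + r), wwt w) ≤
      (1 - ∑ w ∈ GW (3 * k) k ((39 * k + 19) / 20) (41 * k / 20), wwt w) +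
        2 * Real.exp (-(((r : ℝ) + 1) ^ 2 / (32 * k))) := by
  classical
  have hkR : (0 : ℝ) < k := by
    have : 0 < k := by omega
    exact_mod_cast this
  have hη1 : ((r : ℝ) + 1) / k ≤ 1 := by
    rw [div_le_one hkR]
    have : r + 1 ≤ k := by omega
    exact_mod_cast this
  have h1 := tail (3 * k) k (η := ((r : ℝ) + 1) / k) (by positivity) hη1
  have h2 : (((r : ℝ) + 1) / k) ^ 2 * k / 32 = ((r : ℝ) + 1) ^ 2 / (32 * k) := by
    field_simp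
  rw [h2] at h1
  have h3 : (((r : ℝ) + 1) / k) * k = (r : ℝ) + 1 := by field_simp
  rw [h3] at h1
  have hsub : GW (3 * k) k ((39 * k + 19) / 20) (41 * k / 20) ⊆
      GW (3 * k) k (2 * k - r) (2 * k + r) ∪
        (FW (3 * k) k).filter (fun w => (r : ℝ) + 1 ≤ |(w.sum : ℝ) - 2 * k|) := by
    intro w hw
    unfold GW at hw ⊢
    rw [mem_filter] at hw
    rw [mem_union, mem_filter, mem_filter]
    by_cases h : 2 * k - r ≤ w.sum ∧ w.sum ≤ 2 * k + r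
    · exact Or.inl ⟨hw.1, h⟩
    · refine Or.inr ⟨hw.1, ?_⟩
      rcases not_and_or.1 h with h' | h'
      · have h4 : w.sum + r + 1 ≤ 2 * k := by omega
        have h5 : (w.sum : ℝ) + r + 1 ≤ 2 * k := by exact_mod_cast h4
        have := neg_le_abs ((w.sum : ℝ) - 2 * k)
        linarith
      · have h4 : 2 * k + r + 1 ≤ w.sum := by omega
        have h5 : (2 : ℝ) * k + r + 1 ≤ w.sum := by exact_mod_cast h4
        have := le_abs_self ((w.sum : ℝ) - 2 * k)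
        linarith
  have hnn : ∀ w : List ℕ, 0 ≤ wwt w := fun w => by unfold wwt; positivity
  have h6 := sum_le_sum_of_subset_of_nonneg hsub (f := wwt) (fun w _ _ => hnn w)
  have h7 : ∑ w ∈ GW (3 * k) k (2 * k - r) (2 * k + r) ∪
        (FW (3 * k) k).filter (fun w => (r : ℝ) + 1 ≤ |(w.sum : ℝ) - 2 * k|), wwt w ≤
      ∑ w ∈ GW (3 * k) k (2 * k - r) (2 * k + r), wwt w +
        ∑ w ∈ (FW (3 * k) k).filter (fun w => (r : ℝ) + 1 ≤ |(w.sum : ℝ) - 2 * k|), wwt w := by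
    rw [← sum_union_inter]
    have : 0 ≤ ∑ w ∈ GW (3 * k) k (2 * k - r) (2 * k + r) ∩
        (FW (3 * k) k).filter (fun w => (r : ℝ) + 1 ≤ |(w.sum : ℝ) - 2 * k|), wwt w :=
      sum_nonneg fun w _ => hnn w
    linarith
  linarith

theorem err2_le {d : ℤ} {A : ℝ} (hA : 0 < A) {k m m' r : ℕ} (hr : 20 * r ≤ k) (hk : 2 ≤ k) :
    Err2 d A k m m' (2 * k - r) (2 * k + r) ≤ Err d A k m m' +
      2 * Real.exp (-(((r : ℝ) + 1) ^ 2 / (32 * k))) := by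
  unfold Err2 Err
  have h1 := mass_diff hr hk
  have hTm : 2 * k + r ≤ 41 * k / 20 := by omega
  have h2 : (2 : ℝ) ^ (2 * k + r) ≤ 2 ^ (41 * k / 20) := pow_le_pow_right₀ (by norm_num) hTm
  set δ := ∑ T ∈ range (k * (3 * k) + 1), dev (FWT (3 * k) k T) wwt (fun w => (Wo w : ℤ)) (k + m) m'
    with hδ
  have hδ0 : 0 ≤ δ := sum_nonneg fun _ _ => sum_nonneg fun _ _ => abs_nonneg _
  have hZ : 0 ≤ 2 * 3 ^ m / A := by positivity
  have h3 : (2 : ℝ) ^ (2 * k + r) * (2 * 3 ^ m / A) ≤ 2 ^ (41 * k / 20) * (2 * 3 ^ m / A) :=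
    mul_le_mul_of_nonneg_right h2 hZ
  have h4 : (1 + (2 : ℝ) ^ (2 * k + r) * (2 * 3 ^ m / A)) * δ ≤
      (1 + 2 ^ (41 * k / 20) * (2 * 3 ^ m / A)) * δ :=
    mul_le_mul_of_nonneg_right (by linarith) hδ0
  have h5 : (|(d : ℝ)| + 2) * (2 : ℝ) ^ (2 * k + r) ≤ (|(d : ℝ)| + 2) * 2 ^ (41 * k / 20) :=
    mul_le_mul_of_nonneg_left h2 (by positivity)
  have h6 : (1 + (|(d : ℝ)| + 2) * (2 : ℝ) ^ (2 * k + r)) * (2 * 3 ^ m / A) ≤
      (1 + (|(d : ℝ)| + 2) * 2 ^ (41 * k / 20)) * (2 * 3 ^ m / A) :=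
    mul_le_mul_of_nonneg_right (by linarith) hZ
  linarith

/-- the error with the deviation `min (k / 20) (D t^(1/4))` -/
theorem err_all (d : ℤ) : ∃ C : ℝ, 0 < C ∧ ∀ D : ℝ, 0 < D → ∀ A : ℝ, 0 < A → 1000 ≤ Real.log A →
    ∀ k m m' : ℕ, (m : ℝ) ^ 2 ≤ Real.log A → k = ⌊Real.log A / 2⌋₊ →
    m' = ⌊Real.sqrt (0.8 * Real.log A)⌋₊ → ∃ r : ℕ, 20 * r ≤ k ∧ (r : ℝ) ≤ D * √ (√ (Real.log A)) ∧
    Err2 d A k m m' (2 * k - r) (2 * k + r) ≤ C / Real.log A + 32 * √ (Real.log A) / D ^ 2 := by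
  obtain ⟨C, hC, herr⟩ := err_bound 1 d
  refine ⟨C, hC, fun D hD A hA ht k m m' hm hk hm' => ?_⟩
  have h1 := herr A hA ht k m m' hm hk hm'
  rw [pow_one] at h1
  set t := Real.log A with htd
  have ht0 : 0 < t := by linarith
  have hk1 : (k : ℝ) ≤ t / 2 := by rw [hk]; exact Nat.floor_le (by linarith)
  have hk2 : t / 2 - 1 ≤ k := by rw [hk]; linarith [Nat.lt_floor_add_one (t / 2)]
  have hk0 : (0 : ℝ) < k := by linarith
  have hk2N : 2 ≤ k := by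
    have : (2 : ℝ) ≤ k := by linarith
    exact_mod_cast this
  set q := √ (√ t) with hq
  have hq2 : q ^ 2 = √ t := Real.sq_sqrt (Real.sqrt_nonneg _)
  have hq0 : 0 < q := Real.sqrt_pos.2 (Real.sqrt_pos.2 ht0)
  have hs0 : 0 < √ t := Real.sqrt_pos.2 ht0
  have hss : √ t * √ t = t := Real.mul_self_sqrt ht0.le
  rcases le_or_gt (k / 20) ⌊D * q⌋₊ with hcase | hcase
  · refine ⟨k / 20, by omega, ?_, ?_⟩
    · refine le_trans ?_ (Nat.floor_le (by positivity))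
      exact_mod_cast hcase
    · have e1 : 2 * k - k / 20 = (39 * k + 19) / 20 := by omega
      have e2 : 2 * k + k / 20 = 41 * k / 20 := by omega
      rw [e1, e2]
      have e3 : Err2 d A k m m' ((39 * k + 19) / 20) (41 * k / 20) = Err d A k m m' := rfl
      rw [e3]
      have : 0 ≤ 32 * √ t / D ^ 2 := by positivity
      linarith
  · set r := ⌊D * q⌋₊ with hr
    have hr1 : 20 * r ≤ k := by omega
    refine ⟨r, hr1, Nat.floor_le (by positivity), ?_⟩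
    have h2 := err2_le (d := d) hA (m := m) (m' := m') hr1 hk2N
    have h3 : 2 * Real.exp (-(((r : ℝ) + 1) ^ 2 / (32 * k))) ≤ 32 * √ t / D ^ 2 := by
      have h4 : D * q < (r : ℝ) + 1 := Nat.lt_floor_add_one _
      have h5 : D ^ 2 * √ t ≤ ((r : ℝ) + 1) ^ 2 := by
        rw [← hq2, ← mul_pow]
        exact pow_le_pow_left₀ (by positivity) h4.le 2
      have h6 : D ^ 2 / (16 * √ t) ≤ ((r : ℝ) + 1) ^ 2 / (32 * k) := by
        rw [div_le_div_iff₀ (by positivity) (by positivity)]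
        calc D ^ 2 * (32 * k) ≤ D ^ 2 * (32 * (t / 2)) := by gcongr
          _ = D ^ 2 * √ t * (16 * √ t) := by
              rw [show D ^ 2 * √ t * (16 * √ t) = D ^ 2 * 16 * (√ t * √ t) by ring, hss]; ring
          _ ≤ ((r : ℝ) + 1) ^ 2 * (16 * √ t) := by gcongr
      have h7 : Real.exp (-(((r : ℝ) + 1) ^ 2 / (32 * k))) ≤ Real.exp (-(D ^ 2 / (16 * √ t))) :=
        Real.exp_le_exp.2 (by linarith)
      have h8 : Real.exp (-(D ^ 2 / (16 * √ t))) ≤ 16 * √ t / D ^ 2 := by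
        have hy : 0 < D ^ 2 / (16 * √ t) := by positivity
        have h9 := Real.add_one_le_exp (D ^ 2 / (16 * √ t))
        rw [Real.exp_neg]
        calc (Real.exp (D ^ 2 / (16 * √ t)))⁻¹ ≤ (D ^ 2 / (16 * √ t))⁻¹ :=
              inv_anti₀ hy (by linarith)
          _ = 16 * √ t / D ^ 2 := by rw [inv_div]
      calc 2 * Real.exp (-(((r : ℝ) + 1) ^ 2 / (32 * k))) ≤ 2 * (16 * √ t / D ^ 2) := by linarith
        _ = 32 * √ t / D ^ 2 := by ring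
    linarith

end Pool.Agent.Q158.Col3
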